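import Pool.Agent.helper43.DHB.SpecB

/-!
# d2:bSL1 (MP_5823cb_al): sliver, one label, one point (helper99)
-/

set_option autoImplicit false

open Filter Topology MeasureTheory
open scoped commutatorElement

namespace Pool.Agent.helper90.DH

open Pool.Agent.helper64.D2

theorem bSL1 (hbDGT : bDGT_stmt) (hbPRB : bPRB_stmt) (hbNMF : bNMF_stmt) : bSL1_stmt := by
  intro P b τ N s σ hP hτ hτs hσ hN
  obtain ⟨hmono, -, -, -, hun, -, -⟩ := hbPRB
  obtain ⟨-, hsm, -, hsl⟩ := hbNMF.2.2.1 P (1 / 100) (by norm_num) hP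
  have hN0 : (0 : ℝ) < N := by exact_mod_cast hN
  have h2s : (0 : ℝ) < 2 ^ s := by positivity
  have h2σ : (0 : ℝ) < 2 ^ σ := by positivity
  have hhalf : ∀ x y, |x - y| / 2 ≤ |P x - P y| := by
    intro x y
    have h1 := (hsl x y).1
    have h2 := abs_nonneg (x - y)
    linarith
  have hρ : (3 : ℝ) / 2 ^ σ ≤ 3 / (8 * 2 ^ s) := by
    apply div_le_div_of_nonneg_left (by norm_num) (by positivity)
    calc (8 : ℝ) * 2 ^ s = 2 ^ (s + 3) := by rw [pow_add]; ring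
      _ ≤ 2 ^ σ := pow_le_pow_right₀ (by norm_num) hσ
  have hd : ∀ y : ℝ, bpr {c : Fin N | |P (b + τ * (((c : ℕ) : ℝ) / N)) - y| ≤ 3 / 2 ^ σ} ≤ 12 / (2 ^ σ * τ) + 1 / N := by
    intro y
    have := hbDGT P b τ (3 / 2 ^ σ) y N hhalf hτ (by positivity) hN
    have e : 4 * (3 / 2 ^ σ) / τ = 12 / (2 ^ σ * τ) := by field_simp; ring
    rwa [e] at this
  set k0 : ℤ := ⌈2 ^ s * P b - 3 / 8⌉ with hk0
  have hk1 : 2 ^ s * P b - 3 / 8 ≤ k0 := Int.le_ceil _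
  have hk2 : (k0 : ℝ) < 2 ^ s * P b - 3 / 8 + 1 := Int.ceil_lt_add_one _
  have hsub : {c : Fin N | ∃ k : ℤ, |P (b + τ * (((c : ℕ) : ℝ) / N)) - (k : ℝ) / 2 ^ s| ≤ 3 / 2 ^ σ} ⊆
      {c : Fin N | |P (b + τ * (((c : ℕ) : ℝ) / N)) - (k0 : ℝ) / 2 ^ s| ≤ 3 / 2 ^ σ} ∪
      {c : Fin N | |P (b + τ * (((c : ℕ) : ℝ) / N)) - ((k0 + 1 : ℤ) : ℝ) / 2 ^ s| ≤ 3 / 2 ^ σ} := by
    rintro c ⟨k, hk⟩
    have hc1 : ((c : ℕ) : ℝ) / N ≤ 1 := by
      rw [div_le_one hN0]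
      exact_mod_cast c.2.le
    have hc0 : (0 : ℝ) ≤ ((c : ℕ) : ℝ) / N := by positivity
    set z : ℝ := b + τ * (((c : ℕ) : ℝ) / N) with hz
    have hbz : b ≤ z := by
      have := mul_nonneg hτ.le hc0
      linarith
    have hPz1 : P b ≤ P z := hsm.monotone hbz
    have hPz2 : P z - P b ≤ (1 + 1 / 100) * (1 / 2 ^ s) := by
      have h1 := (hsl z b).2
      rw [abs_of_nonneg (by linarith), abs_of_nonneg (by linarith)] at h1
      have h2 : z - b ≤ 1 / 2 ^ s := by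
        have : τ * (((c : ℕ) : ℝ) / N) ≤ τ * 1 := mul_le_mul_of_nonneg_left hc1 hτ.le
        linarith
      have h3 := mul_le_mul_of_nonneg_left h2 (show (0 : ℝ) ≤ 1 + 1 / 100 by norm_num)
      linarith
    have hPz3 : 2 ^ s * P z - 2 ^ s * P b ≤ 101 / 100 := by
      have h1 := mul_le_mul_of_nonneg_left hPz2 h2s.le
      have e : (2 : ℝ) ^ s * ((1 + 1 / 100) * (1 / 2 ^ s)) = 101 / 100 := by field_simp; norm_num
      rw [e] at h1
      linarith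
    have hPz4 : 2 ^ s * P b ≤ 2 ^ s * P z := mul_le_mul_of_nonneg_left hPz1 h2s.le
    have hk' : |2 ^ s * P z - k| ≤ 3 / 8 := by
      have e1 : 2 ^ s * P z - k = 2 ^ s * (P z - k / 2 ^ s) := by field_simp
      rw [e1, abs_mul, abs_of_pos h2s]
      have h1 := mul_le_mul_of_nonneg_left (hk.trans hρ) h2s.le
      have e2 : (2 : ℝ) ^ s * (3 / (8 * 2 ^ s)) = 3 / 8 := by field_simp
      rwa [e2] at h1
    rw [abs_le] at hk'
    have hlo : k0 ≤ k := by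
      rw [hk0, Int.ceil_le]
      linarith
    have hhi : k < k0 + 2 := by
      have : (k : ℝ) < ((k0 + 2 : ℤ) : ℝ) := by
        push_cast
        linarith
      exact_mod_cast this
    have hcase : k = k0 ∨ k = k0 + 1 := by omega
    rcases hcase with h | h
    · left
      show |P z - (k0 : ℝ) / 2 ^ s| ≤ 3 / 2 ^ σ
      rw [← h]
      exact hk
    · right
      show |P z - ((k0 + 1 : ℤ) : ℝ) / 2 ^ s| ≤ 3 / 2 ^ σ
      rw [← h]
      exact hk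
  have h1 := (hmono (Fin N) _ _ hsub).trans (hun (Fin N) _ _)
  have h2 := hd ((k0 : ℝ) / 2 ^ s)
  have h3 := hd (((k0 + 1 : ℤ) : ℝ) / 2 ^ s)
  have h4 : (0 : ℝ) ≤ 12 / (2 ^ σ * τ) + 1 / N := by positivity
  linarith

end Pool.Agent.helper90.DH
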