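import Pool.Agent.helper43.DHB.SpecB

/-!
# d2:bSUP (MP_5823cb_al): affine functions on a cell (helper99)
-/

set_option autoImplicit false

open Filter Topology MeasureTheory
open scoped commutatorElement

namespace Pool.Agent.helper90.DH

open Pool.Agent.helper64.D2

theorem bSUP_int (a b u v : ℝ) (huv : u ≤ v) : ∫ t in Set.Ico u v, (a + b * t) ^ 2 =
    (v - u) * ((a + b * ((u + v) / 2)) ^ 2 + b ^ 2 * (v - u) ^ 2 / 12) := by
  rw [integral_Ico_eq_integral_Ioc, ← intervalIntegral.integral_of_le huv]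
  have h : ∀ t ∈ Set.uIcc u v, HasDerivAt (fun t : ℝ => a ^ 2 * t + a * b * t ^ 2 + b ^ 2 * (t ^ 3 / 3)) ((a + b * t) ^ 2) t := by
    intro t _
    have h1 := ((hasDerivAt_id t).const_mul (a ^ 2)).add ((((hasDerivAt_id t).pow 2).const_mul (a * b)).add ((((hasDerivAt_id t).pow 3).div_const 3).const_mul (b ^ 2)))
    refine (h1.congr_deriv ?_).congr_of_eventuallyEq ?_
    · simp
      ring
    · exact Eventually.of_forall (fun x => by simp; ring)
  rw [intervalIntegral.integral_eq_sub_of_hasDerivAt h (Continuous.intervalIntegrable (by fun_prop) _ _)]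
  ring

theorem bSUP : bSUP_stmt := by
  intro s f hf k x hx
  obtain ⟨a, b, hab⟩ := hf k
  have h2 : (0 : ℝ) < 2 ^ s := by positivity
  set u : ℝ := (k : ℝ) / 2 ^ s with hu
  set v : ℝ := ((k : ℝ) + 1) / 2 ^ s with hv
  set h : ℝ := 1 / 2 ^ s with hh
  have hh0 : 0 < h := by positivity
  have hvu : v - u = h := by rw [hv, hu, hh]; field_simp; ring
  have hI : ∫ t in cell s k, f t ^ 2 = h * ((a + b * ((u + v) / 2)) ^ 2 + b ^ 2 * h ^ 2 / 12) := by
    have e1 : ∫ t in cell s k, f t ^ 2 = ∫ t in Set.Ico u v, (a + b * t) ^ 2 := by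
      refine setIntegral_congr_fun measurableSet_Ico ?_
      intro t ht
      show f t ^ 2 = (a + b * t) ^ 2
      rw [hab t ht]
    rw [e1, bSUP_int a b u v (by linarith), hvu]
  have e2 : (2 : ℝ) ^ s * h = 1 := by rw [hh]; field_simp
  have hx1 : u ≤ x := hx.1
  have hx2 : x < v := hx.2
  rw [hI]
  set c : ℝ := (u + v) / 2 with hc
  set α : ℝ := a + b * c with hα
  constructor
  · have e3 : 4 * 2 ^ s * (h * (α ^ 2 + b ^ 2 * h ^ 2 / 12)) = 4 * (α ^ 2 + b ^ 2 * h ^ 2 / 12) := by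
      calc 4 * 2 ^ s * (h * (α ^ 2 + b ^ 2 * h ^ 2 / 12)) = 4 * (2 ^ s * h) * (α ^ 2 + b ^ 2 * h ^ 2 / 12) := by ring
        _ = _ := by rw [e2]; ring
    rw [e3, hab x hx]
    have e4 : a + b * x = α + b * (x - c) := by rw [hα]; ring
    rw [e4]
    have e5 : (x - c) ^ 2 ≤ h ^ 2 / 4 := by
      have h6 : |x - c| ≤ h / 2 := by
        rw [abs_le]
        constructor <;> rw [hc] <;> linarith
      have := pow_le_pow_left₀ (abs_nonneg _) h6 2
      rw [sq_abs] at this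
      linarith
    have e7 : b ^ 2 * (x - c) ^ 2 ≤ b ^ 2 * (h ^ 2 / 4) := mul_le_mul_of_nonneg_left e5 (sq_nonneg b)
    nlinarith [sq_nonneg (3 * α - b * (x - c))]
  · intro y hy
    rw [hab x hx, hab y hy]
    have e8 : (8 : ℝ) ^ s * h ^ 3 = 1 := by
      have : (8 : ℝ) ^ s = (2 ^ s) ^ 3 := by
        rw [← pow_mul, mul_comm s 3, pow_mul]
        norm_num
      rw [this, ← mul_pow, e2, one_pow]
    have e9 : 12 * 8 ^ s * (x - y) ^ 2 * (h * (α ^ 2 + b ^ 2 * h ^ 2 / 12)) =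
        (x - y) ^ 2 * (12 * 8 ^ s * h * α ^ 2 + b ^ 2 * (8 ^ s * h ^ 3)) := by ring
    rw [e9, e8]
    have e10 : 0 ≤ (x - y) ^ 2 * (12 * 8 ^ s * h * α ^ 2) := by positivity
    have e11 : (a + b * x - (a + b * y)) ^ 2 = (x - y) ^ 2 * b ^ 2 := by ring
    rw [e11]
    nlinarith

end Pool.Agent.helper90.DH
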